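import Pool.Agent.Run7.h219.LS.Stm
import Pool.Agent.TH305.DR.Fix

/-!
LS, piece B (helper475): the number of separated bad points of order two.
-/

set_option autoImplicit false

open MeasureTheory Set Metric Filter Topology
open scoped ContDiff ENNReal

namespace Run7.h475.LS

open H459R3.NS W221.NS Run7.h219.LS
open Pool.Agent.TH305.DR (SV SS SV_frv loc_all mark5 ms_small ball_path A2_nonneg)

/-- Packing with small balls. -/
lemma pack2 {H : V → ℝ≥0∞} {c : ℝ≥0∞} {r : ℝ} (hr : 0 < r) (S : Finset V)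
    (hsep : ∀ x ∈ S, ∀ y ∈ S, x ≠ y → r / 4 ≤ ‖x - y‖)
    (hH : ∀ x ∈ S, ∀ z ∈ ball x (r / 32), c ≤ H z) :
    S.card * (c * ENNReal.ofReal ((r / 16) ^ 3)) ≤ ∫⁻ x, H x := by
  have hd : Set.PairwiseDisjoint (↑S) (fun x : V => ball x (r / 32)) := by
    intro x hx y hy hxy
    refine ball_disjoint_ball ?_
    rw [dist_eq_norm]
    have := hsep x hx y hy hxy
    linarith
  calc S.card * (c * ENNReal.ofReal ((r / 16) ^ 3))
      = ∑ x ∈ S, ∫⁻ _ in ball x (r / 32), c := by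
        have : ∀ x ∈ S, ∫⁻ _ in ball x (r / 32), c = c * ENNReal.ofReal ((r / 16) ^ 3) := by
          intro x _
          rw [setLIntegral_const, Real.volume_pi_ball _ (by positivity)]
          congr 2
          simp
          ring
        rw [Finset.sum_congr rfl this, Finset.sum_const, nsmul_eq_mul]
    _ ≤ ∑ x ∈ S, ∫⁻ z in ball x (r / 32), H z := by
        refine Finset.sum_le_sum fun x hx => ?_
        exact setLIntegral_mono' measurableSet_ball fun z hz => hH x hx z hz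
    _ = ∫⁻ z in ⋃ x ∈ S, ball x (r / 32), H z := by
        rw [lintegral_biUnion_finset hd fun _ _ => measurableSet_ball]
    _ ≤ _ := setLIntegral_le_lintegral _ _

/-- The bound at a point, from the bounds in the moving frame. -/
lemma point2 {r s M δ Q0 Q1 Q2 : ℝ} (hr : 0 < r) {u : ℝ → V → V} {X : ℝ → V → V} (hM : 0 ≤ M)
    (hX : Flow2 (mol r u) (s - r ^ 2) s X)
    (hMb : ∀ t ∈ Ioo (s - r ^ 2) s, ∀ x, ‖mol r u t x‖ ≤ M)
    (hcd : ∀ t ∈ Ioo (s - r ^ 2) s, ContDiff ℝ ∞ (u t))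
    (hδ1 : δ ≤ r ^ 2 / 64) (hδ2 : δ ≤ r / 64) (hδ3 : M * δ ≤ r / 64) {x z y : V} {t : ℝ}
    (ht1 : s - δ < t) (ht2 : t < s) (hz : z ∈ ball x (r / 32)) (hy : y ∈ ball x δ)
    (hloc : ∀ t ∈ Ioo (-1 / 32 : ℝ) 0, ∀ w ∈ ball (0 : V) (1 / 16),
      SV 0 (frv r s (fun τ => X τ z) u t) w ≤ Q0 ∧ SV 1 (frv r s (fun τ => X τ z) u t) w ≤ Q1 ∧
      SV 2 (frv r s (fun τ => X τ z) u t) w ≤ Q2) :
    SV 0 (u t) y + SV 1 (u t) y + SV 2 (u t) y
      ≤ (2 * (Q0 / r ^ 2) + 6 * M ^ 2) + Q1 / r ^ 4 + Q2 / r ^ 6 := by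
  have hr2 : 0 < r ^ 2 := by positivity
  have htm : t ∈ Ioo (s - r ^ 2) s := ⟨by linarith, ht2⟩
  have hsp : ‖X s z - X t z‖ ≤ M * (s - t) := W382.ME.speed hX hMb htm z
  rw [hX.fin z] at hsp
  have hsp2 : ‖z - X t z‖ ≤ r / 64 :=
    hsp.trans ((mul_le_mul_of_nonneg_left (by linarith) hM).trans hδ3)
  have hz' : ‖z - x‖ < r / 32 := by rwa [mem_ball, dist_eq_norm] at hz
  have hy' : ‖y - x‖ < δ := by rwa [mem_ball, dist_eq_norm] at hy
  have h1 : ‖y - X t z‖ < r / 16 := by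
    calc ‖y - X t z‖ = ‖(y - x) - (z - x) + (z - X t z)‖ := by congr 1; abel
      _ ≤ ‖(y - x) - (z - x)‖ + ‖z - X t z‖ := norm_add_le _ _
      _ ≤ ‖y - x‖ + ‖z - x‖ + ‖z - X t z‖ := by gcongr; exact norm_sub_le _ _
      _ < r / 16 := by linarith
  have hw : r⁻¹ • (y - X t z) ∈ ball (0 : V) (1 / 16) := by
    rw [mem_ball, dist_zero_right, norm_smul, norm_inv, Real.norm_eq_abs, abs_of_pos hr]
    rw [inv_mul_lt_iff₀ hr]
    linarith
  have ht' : (t - s) / r ^ 2 ∈ Ioo (-1 / 32 : ℝ) 0 := by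
    constructor
    · rw [lt_div_iff₀ hr2]
      linarith
    · exact div_neg_of_neg_of_pos (by linarith) hr2
  have e1 : s + r ^ 2 * ((t - s) / r ^ 2) = t := by
    field_simp
    ring
  have e2 : X t z + r • (r⁻¹ • (y - X t z)) = y := by
    rw [smul_smul, mul_inv_cancel₀ hr.ne', one_smul]
    abel
  have hv : ContDiff ℝ ∞ (u (s + r ^ 2 * ((t - s) / r ^ 2))) := by
    rw [e1]
    exact hcd t htm
  obtain ⟨a0, a1, a2⟩ := hloc _ ht' _ hw
  rw [SV_frv 0 hv] at a1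
  rw [SV_frv 1 hv] at a2
  rw [e1, e2] at a1 a2
  have b1 : SV 1 (u t) y ≤ Q1 / r ^ 4 := by
    rw [le_div_iff₀ (by positivity)]
    calc SV 1 (u t) y * r ^ 4 = r ^ (2 * 0 + 4) * SV (0 + 1) (u t) y := by ring_nf
      _ ≤ _ := a1
  have b2 : SV 2 (u t) y ≤ Q2 / r ^ 6 := by
    rw [le_div_iff₀ (by positivity)]
    calc SV 2 (u t) y * r ^ 6 = r ^ (2 * 1 + 4) * SV (1 + 1) (u t) y := by ring_nf
      _ ≤ _ := a2
  have b0 : SV 0 (u t) y ≤ 2 * (Q0 / r ^ 2) + 6 * M ^ 2 := by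
    have c0 : SV 0 (frv r s (fun τ => X τ z) u ((t - s) / r ^ 2)) (r⁻¹ • (y - X t z))
        = ∑ i, (r * (u t y i - mol r u t (X t z) i)) ^ 2 := by
      unfold SV
      refine Finset.sum_congr rfl fun i _ => ?_
      rw [Pool.Agent.TH305.DR.SS_zero]
      unfold frv
      simp only
      rw [e1, e2]
      have hd : HasDerivAt (fun τ => X τ z i) (mol r u t (X t z) i) t :=
        (hasDerivAt_pi.1 (hX.ode z t htm)) i
      rw [hd.deriv]
    rw [c0] at a0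
    have c1 : ∑ i, (u t y i - mol r u t (X t z) i) ^ 2 ≤ Q0 / r ^ 2 := by
      rw [le_div_iff₀ hr2, Finset.sum_mul]
      refine le_trans (le_of_eq ?_) a0
      exact Finset.sum_congr rfl fun i _ => by ring
    have c2 : ∀ i, u t y i ^ 2 ≤ 2 * (u t y i - mol r u t (X t z) i) ^ 2 + 2 * M ^ 2 := by
      intro i
      have h4 : |mol r u t (X t z) i| ≤ M :=
        (norm_le_pi_norm (mol r u t (X t z)) i).trans (hMb t htm _)
      have h5 : (mol r u t (X t z) i) ^ 2 ≤ M ^ 2 := by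
        rw [← sq_abs (mol r u t (X t z) i)]
        exact pow_le_pow_left₀ (abs_nonneg _) h4 2
      nlinarith [sq_nonneg (u t y i - 2 * mol r u t (X t z) i)]
    have c3 : SV 0 (u t) y = ∑ i, u t y i ^ 2 := rfl
    rw [c3]
    calc ∑ i, u t y i ^ 2 ≤ ∑ i, (2 * (u t y i - mol r u t (X t z) i) ^ 2 + 2 * M ^ 2) :=
          Finset.sum_le_sum fun i _ => c2 i
      _ = 2 * ∑ i, (u t y i - mol r u t (X t z) i) ^ 2 + 6 * M ^ 2 := by
          rw [Finset.sum_add_distrib, ← Finset.mul_sum, Finset.sum_const, Finset.card_univ,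
            Fintype.card_fin]
          simp
          ring
      _ ≤ _ := by linarith
  linarith

/-- The moving frame at one point: bounds for the derivatives from small dissipation. -/
lemma frame2 : ∃ ε : ℝ, 0 < ε ∧ ∃ C : ℕ → ℝ, (∀ n, 0 < C n) ∧
    ∀ (T κ E : ℝ) (O : Set V) (u : ℝ → V → V) (p : ℝ → V → ℝ), LSol T κ E O u p →
      ∀ r s : ℝ, 0 < r → r ^ 2 < s → s < T → ∀ (M : ℝ) (X : ℝ → V → V),
      (∀ t ∈ Ioo (s - r ^ 2) s, ∀ x, ‖mol r u t x‖ ≤ M) →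
      Flow2 (mol r u) (s - r ^ 2) s X → ∀ z : V,
      (∀ t ∈ Ioo (s - r ^ 2) s, ball (X t z) (8 * r) ⊆ O) →
      ∫⁻ τ in Ioo (s - r ^ 2) s, ∫⁻ y in ball (X τ z) (8 * r) ∩ O,
        ENNReal.ofReal (gsq (u τ) y) < ENNReal.ofReal (ε * r) →
      ∀ n, ∀ t ∈ Ioo (-1 / 32 : ℝ) 0, ∀ w ∈ ball (0 : V) (1 / 16),
        SV n (frv r s (fun τ => X τ z) u t) w
          ≤ C n * (1 + 2 * r ^ 2 * ((r ^ 3)⁻¹ * E ^ 2 + 1536 * M ^ 2)) := by
  obtain ⟨ε, hε, C, hC, hloc⟩ := loc_all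
  refine ⟨ε, hε, C, hC, ?_⟩
  intro T κ E O u p hL r s hr hrs hsT M X hMb hX z hball hF n t ht w hw
  have hu := hL.smooth_u
  have hr2 : 0 < r ^ 2 := by positivity
  have hα : 0 < s - r ^ 2 := by linarith
  have hPth : Pool.Agent.TH305.LW.Pth r u (s - r ^ 2) s (fun τ => X τ z) :=
    Pool.Agent.TH305.LW.Pth.ofFlow hX z
  have hms := ms_small hu hr hα hsT hε hPth.cont hball hF
  have hL2 := W221.NS.B.p_frame2 T κ E O u p hL r s hr hrs hsT (fun τ => X τ z) hPth.smooth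
    (fun t ht => hPth.ode t ht) hball
  have hInt := Pool.Agent.TH305.LW.frame_int (r := r) (s := s) hu hr hα le_rfl le_rfl hsT
    hPth.cont
  have hle : ∫ t in Ioo (-1) 0, B2 0 8 (frv r s (fun τ => X τ z) u t) ≤ ε := by
    rw [Pool.Agent.TH305.LW.ms_eq hu hr hα hsT (fun τ => X τ z)]
    exact hms
  have hall := hloc _ _ hL2 hInt hle
  obtain ⟨-, a2⟩ := hall n t ht w hw
  refine a2.trans ?_
  apply mul_le_mul_of_nonneg_left _ (hC n).le
  have ht' : t ∈ Ioo (-1 : ℝ) 0 := ⟨by linarith [ht.1], ht.2⟩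
  have a1 : r ^ 2 * (-1) < r ^ 2 * t := (mul_lt_mul_iff_right₀ hr2).2 ht'.1
  have a2 : r ^ 2 * t < r ^ 2 * 0 := (mul_lt_mul_iff_right₀ hr2).2 ht'.2
  have hτm : s + r ^ 2 * t ∈ Ioo (s - r ^ 2) s := ⟨by linarith, by linarith⟩
  have hτT : s + r ^ 2 * t ∈ Ioo 0 T := ⟨by linarith, by linarith⟩
  have hA2 : A2 0 4 (frv r s (fun τ => X τ z) u t)
      ≤ 2 * r ^ 2 * ((r ^ 3)⁻¹ * E ^ 2 + 1536 * M ^ 2) := by
    refine W382.ME.A2_bd (W382.ME.cd_slice hu hτT) (hL.en_int _ hτT) (hL.en _ hτT) hr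
      (X (s + r ^ 2 * t) z) (fun i => deriv (fun τ => X τ z i) (s + r ^ 2 * t)) ?_
    intro i
    have hd : HasDerivAt (fun τ => X τ z i) (mol r u (s + r ^ 2 * t) (X (s + r ^ 2 * t) z) i)
        (s + r ^ 2 * t) := (hasDerivAt_pi.1 (hX.ode z _ hτm)) i
    rw [hd.deriv]
    exact (norm_le_pi_norm (mol r u _ (X _ z)) i).trans (hMb _ hτm _)
  linarith

/-- B. The number of separated bad points of order two. -/
theorem t_BAD : S_BAD := by
  obtain ⟨ε, hε, C, hC, hfr⟩ := frame2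
  obtain ⟨CM, hCM, hmol⟩ := W221.NS.B.p_moll2
  refine ⟨9 + CM + 3 * 4096 * 4096 / ε, by positivity, ?_⟩
  intro T κ E O u p hκ hE hL r hr hrT hκr S hS hO hsep
  have hu := hL.smooth_u
  have hr2 : 0 < r ^ 2 := by positivity
  have hsr0 : 0 < √r := Real.sqrt_pos.2 hr
  have hss : √r * √r = r := Real.mul_self_sqrt hr.le
  have hsr : √(r ^ 3) = r * √r := by
    rw [show r ^ 3 = r ^ 2 * r by ring, Real.sqrt_mul (by positivity), Real.sqrt_sq hr.le]
  obtain ⟨L, hgood⟩ := hmol T κ E O u p hκ hE hL r hr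
  have hMr : CM * E / √(r ^ 3) * r ^ 2 = CM * E * √r := by
    rw [hsr, div_mul_eq_mul_div, div_eq_iff (by positivity)]
    calc CM * E * r ^ 2 = CM * E * (r * (√r * √r)) := by rw [hss]; ring
      _ = _ := by ring
  have hq0 : 0 ≤ 3 * 4096 * 4096 / ε := by positivity
  have hκ' : CM * κ / √(r ^ 3) * r ^ 2 ≤ 1 := by
    have e : CM * κ / √(r ^ 3) * r ^ 2 = CM * κ * √r := by
      rw [hsr, div_mul_eq_mul_div, div_eq_iff (by positivity)]
      calc CM * κ * r ^ 2 = CM * κ * (r * (√r * √r)) := by rw [hss]; ring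
        _ = _ := by ring
    rw [e]
    refine le_trans ?_ hκr
    gcongr
    linarith
  obtain ⟨M, hMdef⟩ : ∃ M : ℝ, M = CM * E / √(r ^ 3) := ⟨_, rfl⟩
  rw [← hMdef] at hgood hMr
  have hM0 : 0 ≤ M := by rw [hMdef]; positivity
  obtain ⟨δ, hδ0, hδ1, hδ2, hδ3⟩ : ∃ δ : ℝ, 0 < δ ∧ δ ≤ r ^ 2 / 64 ∧ δ ≤ r / 64 ∧ M * δ ≤ r / 64 := by
    refine ⟨min (r ^ 2 / 64) (r / 64 / (M + 1)), by positivity, min_le_left _ _, ?_, ?_⟩
    · refine (min_le_right _ _).trans (div_le_self (by positivity) (by linarith))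
    · calc M * min (r ^ 2 / 64) (r / 64 / (M + 1)) ≤ (M + 1) * (r / 64 / (M + 1)) := by
            apply mul_le_mul (by linarith) (min_le_right _ _) (by positivity) (by positivity)
        _ = r / 64 := by field_simp
  obtain ⟨W, hW⟩ : ∃ W : ℝ, W = 1 + 2 * r ^ 2 * ((r ^ 3)⁻¹ * E ^ 2 + 1536 * M ^ 2) := ⟨_, rfl⟩
  obtain ⟨Q, hQ⟩ : ∃ Q : ℝ, Q = (2 * (C 0 * W / r ^ 2) + 6 * M ^ 2) + C 1 * W / r ^ 4
    + C 2 * W / r ^ 6 := ⟨_, rfl⟩
  have hsing : ∀ x : V, ∃ t : ℝ, ∃ y : V, x ∈ S → (t ∈ Ioo (T - δ) T ∧ y ∈ ball x δ ∧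
      Q < SV 0 (u t) y + SV 1 (u t) y + SV 2 (u t) y) := by
    intro x
    by_cases hx : x ∈ S
    · obtain ⟨t, ht, y, hy, h⟩ := hS x hx δ hδ0 Q
      exact ⟨t, y, fun _ => ⟨ht, hy, h⟩⟩
    · exact ⟨0, 0, fun h => absurd h hx⟩
  choose tx yx htx using hsing
  obtain ⟨s, hs1, hsT, hs3⟩ : ∃ s, T - δ < s ∧ s < T ∧ ∀ x ∈ S, tx x < s := by
    have e1 : ∀ᶠ s in 𝓝[<] T, s ∈ Ioo (T - δ) T := Ioo_mem_nhdsLT (by linarith)
    have e2 : ∀ᶠ s in 𝓝[<] T, ∀ x ∈ S, tx x < s := by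
      rw [Finset.eventually_all]
      intro x hx
      filter_upwards [Ioo_mem_nhdsLT (htx x hx).1.2] with s hs
      exact hs.1
    obtain ⟨s, h1, h2⟩ := (e1.and e2).exists
    exact ⟨s, h1.1, h1.2, h2⟩
  have hrs : r ^ 2 < s := by linarith
  have hα : 0 < s - r ^ 2 := by linarith
  have hαβ : s - r ^ 2 < s := by linarith
  obtain ⟨X, hX⟩ := W221.NS.B.p_flowx2 T _ L _ _ hgood (s - r ^ 2) s hα hαβ hsT
  have hmap0 := W221.NS.B.p_flowm2 T _ L _ _ hgood (s - r ^ 2) s hα hαβ hsT X hX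
  have hmap : ∀ t ∈ Icc (s - r ^ 2) s, Measure.map (X t) volume
      ≤ ENNReal.ofReal 3 • (volume : Measure V) := by
    intro t ht
    refine (hmap0 t ht).trans ?_
    have h1 : Real.exp (CM * κ / √(r ^ 3) * (s - (s - r ^ 2))) ≤ 3 := by
      have e : s - (s - r ^ 2) = r ^ 2 := by ring
      rw [e]
      calc Real.exp (CM * κ / √(r ^ 3) * r ^ 2) ≤ Real.exp 1 := Real.exp_le_exp.2 hκ'
        _ ≤ 3 := by
          have := Real.exp_one_lt_d9
          linarith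
    intro A
    simp only [Measure.smul_apply, smul_eq_mul]
    exact mul_le_mul_left (ENNReal.ofReal_le_ofReal h1) _
  obtain ⟨hFm, hFi⟩ := mark5 hL.openO hu hr hα hαβ.le hsT hX.cont hmap
  have hMb : ∀ t ∈ Ioo (s - r ^ 2) s, ∀ x, ‖mol r u t x‖ ≤ M :=
    fun t ht x => hgood.bd t ⟨by linarith [ht.1], ht.2.trans hsT⟩ x
  have hcd : ∀ t ∈ Ioo (s - r ^ 2) s, ContDiff ℝ ∞ (u t) := fun t ht =>
    W382.ME.cd_slice hu ⟨by linarith [ht.1], ht.2.trans hsT⟩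
  have hclaim : ∀ x ∈ S, ∀ z ∈ ball x (r / 32), ENNReal.ofReal (ε * r) ≤
      ∫⁻ τ in Ioo (s - r ^ 2) s, ∫⁻ y in ball (X τ z) (8 * r) ∩ O,
        ENNReal.ofReal (gsq (u τ) y) := by
    intro x hx z hz
    by_contra hlt
    rw [not_le] at hlt
    have hz' : ‖z - x‖ < r / 32 := by rwa [mem_ball, dist_eq_norm] at hz
    have hball : ∀ t ∈ Ioo (s - r ^ 2) s, ball (X t z) (8 * r) ⊆ O := by
      intro t ht
      have hdis : ‖z - X t z‖ ≤ M * (s - t) := by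
        have := W382.ME.speed hX hMb ht z
        rwa [hX.fin z] at this
      have h2 : M * (s - t) ≤ CM * E * √r := by
        rw [← hMr]
        exact mul_le_mul_of_nonneg_left (by linarith [ht.1]) hM0
      have h3 : ‖x - X t z‖ ≤ CM * E * √r + r / 32 := by
        calc ‖x - X t z‖ = ‖(z - X t z) - (z - x)‖ := by congr 1; abel
          _ ≤ ‖z - X t z‖ + ‖z - x‖ := norm_sub_le _ _
          _ ≤ _ := by linarith [hdis.trans h2]
      refine ball_path h3 ?_ (hO x hx)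
      have h4 : 0 ≤ E * √r := by positivity
      have h5 : 0 ≤ (CM + 3 * 4096 * 4096 / ε) * r := by positivity
      have h6 : 0 ≤ (9 + 3 * 4096 * 4096 / ε) * (E * √r) := by positivity
      linarith only [h4, h5, h6, hr]
    have hl := hfr T κ E O u p hL r s hr hrs hsT M X hMb hX z hball hlt
    have hl' : ∀ t ∈ Ioo (-1 / 32 : ℝ) 0, ∀ w ∈ ball (0 : V) (1 / 16),
        SV 0 (frv r s (fun τ => X τ z) u t) w ≤ C 0 * W ∧
        SV 1 (frv r s (fun τ => X τ z) u t) w ≤ C 1 * W ∧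
        SV 2 (frv r s (fun τ => X τ z) u t) w ≤ C 2 * W := by
      intro t ht w hw
      rw [hW]
      exact ⟨hl 0 t ht w hw, hl 1 t ht w hw, hl 2 t ht w hw⟩
    obtain ⟨ht, hy, hbig⟩ := htx x hx
    have := point2 hr hM0 hX hMb hcd hδ1 hδ2 hδ3 (t := tx x) (by linarith [ht.1]) (hs3 x hx)
      hz hy hl'
    linarith
  have hpack := pack2 hr S hsep hclaim
  obtain ⟨J, hJ⟩ : ∃ J : ℝ≥0∞, J = ∫⁻ τ in Ioo (T - 2 * r ^ 2) T, ∫⁻ y in O,
    ENNReal.ofReal (gsq (u τ) y) := ⟨_, rfl⟩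
  rw [← hJ]
  have hJ' : ∫⁻ τ in Ioo (s - r ^ 2) s, ∫⁻ y in O, ENNReal.ofReal (gsq (u τ) y) ≤ J := by
    rw [hJ]
    apply lintegral_mono_set
    exact Ioo_subset_Ioo (by linarith) hsT.le
  have hfin : S.card * (ENNReal.ofReal (ε * r) * ENNReal.ofReal ((r / 16) ^ 3))
      ≤ ENNReal.ofReal 3 * ENNReal.ofReal (4096 * r ^ 3) * J :=
    (hpack.trans hFi).trans (mul_le_mul_right hJ' _)
  have hk : ENNReal.ofReal (4096 / (ε * r ^ 3)) * (S.card * (ENNReal.ofReal (ε * r) *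
      ENNReal.ofReal ((r / 16) ^ 3))) ≤ ENNReal.ofReal (4096 / (ε * r ^ 3)) *
        (ENNReal.ofReal 3 * ENNReal.ofReal (4096 * r ^ 3) * J) := by gcongr
  calc ENNReal.ofReal (S.card * r) = ENNReal.ofReal (4096 / (ε * r ^ 3)) *
        (S.card * (ENNReal.ofReal (ε * r) * ENNReal.ofReal ((r / 16) ^ 3))) := by
        rw [← ENNReal.ofReal_mul (by positivity), ← ENNReal.ofReal_natCast S.card,
          ← ENNReal.ofReal_mul (by positivity), ← ENNReal.ofReal_mul (by positivity)]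
        congr 1
        field_simp
        ring
    _ ≤ _ := hk
    _ = ENNReal.ofReal (3 * 4096 * 4096 / ε) * J := by
        rw [← mul_assoc, ← ENNReal.ofReal_mul (by positivity), ← ENNReal.ofReal_mul (by positivity)]
        congr 2
        field_simp
    _ ≤ _ := by
        gcongr
        linarith

end Run7.h475.LS
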